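import Pool.Agent.Lib.MP_a554a0_an.Comm
import Pool.Agent.Lib.MP_a554a0_an.Graph

/-!
# The commutative case

For a compact Hausdorff space `X`, every graph in `G(C(X))` is a disjoint union of complete graphs
if and only if `X` is not an F-space; if `X` is an F-space, all `K_n^{(0)}` are in `G(C(X))`.
-/

set_option autoImplicit false

namespace Pool.Agent.Results.MP_a554a0_an.Commutative

open Pool.Agent.MP_a554a0

theorem result.{u} : ∀ (X : Type u) [TopologicalSpace X] [CompactSpace X] [T2Space X],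
    ((∀ (n : ℕ) (Γ : SimpleGraph (Fin n)), InG C(X, ℂ) Γ → IsCliqueUnion Γ) ↔ ¬ IsFSpace X) ∧
    (IsFSpace X → ∀ n : ℕ, 3 ≤ n → InG C(X, ℂ) (K0 n)) := by
  intro X _ _ _
  letI := CStarAlgebra.spectralOrder C(X, ℂ)
  haveI := CStarAlgebra.spectralOrderedRing C(X, ℂ)
  refine ⟨⟨?_, ?_⟩, ?_⟩
  · intro h hF
    exact not_cliqueUnion_K03 (h 3 _ (K0_of_douglas (douglas_of_fspace hF) 3 le_rfl))
  · intro hF n Γ hΓ
    by_contra hc
    exact hF (fspace_of_douglas (douglas_of_K0 (K03_of_not_cliqueUnion hΓ hc)))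
  · intro hF n hn
    exact K0_of_douglas (douglas_of_fspace hF) n hn

end Pool.Agent.Results.MP_a554a0_an.Commutative
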