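import Pool.Agent.Lib.MP_a554a0_an.Comm
import Pool.Agent.Lib.MP_a554a0_an.Graph

/-!
# C*-algebras whose completable graphs are unions of cliques

A unital C*-algebra `A` has only disjoint unions of complete graphs in `G(A)` if and only if
`M_3(A)` is not an SAW*-algebra, if and only if contractive division (`a* a ≤ b* b` implies
`a = x b` with `‖x‖ ≤ 1`) fails in `A`. For arbitrary C*-algebras all the graphs `K_n^{(0)}` are
completable if and only if all matrix algebras over `A` satisfy a local form of the SAW* condition.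
-/

set_option autoImplicit false

namespace Pool.Agent.Results.MP_a554a0_an.Determination

open Pool.Agent.MP_a554a0

theorem result.{u} :
    (∀ (A : Type u) [CStarAlgebra A],
      ((∀ (n : ℕ) (Γ : SimpleGraph (Fin n)), InG A Γ → IsCliqueUnion Γ) ↔
        ¬ IsSAWStar (Matrix (Fin 3) (Fin 3) A)) ∧
      List.TFAE [InG A (K0 3), ∀ n : ℕ, 3 ≤ n → InG A (K0 n), HasDouglas A,
        IsSAWStar (Matrix (Fin 3) (Fin 3) A), ∀ m : ℕ, IsSAWStar (Matrix (Fin m) (Fin m) A)]) ∧
    (∀ (A : Type u) [NonUnitalCStarAlgebra A],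
      ((∀ (n : ℕ) (Γ : SimpleGraph (Fin n)), InG A Γ → IsCliqueUnion Γ) ↔ ¬ InG A (K0 3)) ∧
      (IsLocalSAWStar (Matrix (Fin 4) (Fin 4) A) → InG A (K0 3)) ∧
      ((∀ n : ℕ, 3 ≤ n → InG A (K0 n)) ↔ ∀ m : ℕ, IsLocalSAWStar (Matrix (Fin m) (Fin m) A))) := by
  have gen : ∀ (A : Type u) [NonUnitalCStarAlgebra A],
      ((∀ (n : ℕ) (Γ : SimpleGraph (Fin n)), InG A Γ → IsCliqueUnion Γ) ↔ ¬ InG A (K0 3)) := by
    intro A _
    letI := CStarAlgebra.spectralOrder A
    haveI := CStarAlgebra.spectralOrderedRing A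
    constructor
    · intro h hK
      exact not_cliqueUnion_K03 (h 3 _ hK)
    · intro h n Γ hΓ
      by_contra hc
      exact h (K03_of_not_cliqueUnion hΓ hc)
  refine ⟨?_, ?_⟩
  · intro A _
    letI := CStarAlgebra.spectralOrder A
    haveI := CStarAlgebra.spectralOrderedRing A
    have tfae : List.TFAE [InG A (K0 3), ∀ n : ℕ, 3 ≤ n → InG A (K0 n), HasDouglas A,
        IsSAWStar (Matrix (Fin 3) (Fin 3) A), ∀ m : ℕ, IsSAWStar (Matrix (Fin m) (Fin m) A)] := by
      tfae_have 1 → 3 := douglas_of_K0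
      tfae_have 3 → 2 := fun h n hn => K0_of_douglas h n hn
      tfae_have 2 → 1 := fun h => h 3 le_rfl
      tfae_have 3 → 5 := fun h m => saw_of_douglas h m
      tfae_have 5 → 4 := fun h => h 3
      tfae_have 4 → 3 := douglas_of_saw3
      tfae_finish
    exact ⟨(gen A).trans (not_congr (tfae.out 0 3)), tfae⟩
  · intro A _
    letI := CStarAlgebra.spectralOrder A
    haveI := CStarAlgebra.spectralOrderedRing A
    refine ⟨gen A, fun h => K0_of_local 1 h, fun h m => local_of_K0 h m, fun h n hn => ?_⟩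
    obtain ⟨k, rfl⟩ : ∃ k, n = k + 2 := ⟨n - 2, by omega⟩
    exact K0_of_local k (h _)

end Pool.Agent.Results.MP_a554a0_an.Determination
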